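import Mathlib
import Pool.Agent.U955.TU.Zero

/-! Property (T) fails for every Dirichlet character: the partial sums of its Dirichlet series have
zeros with real part greater than one (and even greater than `1 + A / log N` for every fixed `A`)
for all large `N`. Hence the implication of Q1 holds for every modulus and every character. -/

set_option autoImplicit false

namespace Pool.Agent.Results.MP_ff1a2a_nt.NoPropertyT

/-- the partial sum `S_N(s, χ)` -/
noncomputable def partialSum {k : ℕ} (χ : DirichletCharacter ℂ k) (N : ℕ) (s : ℂ) : ℂ :=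
  ∑ n ∈ Finset.Icc 1 N, χ (n : ZMod k) * (n : ℂ) ^ (-s)

/-- property (T) -/
def PropertyT {k : ℕ} (χ : DirichletCharacter ℂ k) : Prop :=
  ∀ N : ℕ, 1 ≤ N → ∀ s : ℂ, 1 < s.re → partialSum χ N s ≠ 0

theorem result :
    (∀ (k : ℕ) [NeZero k] (χ : DirichletCharacter ℂ k),
      PropertyT χ → ∀ s : ℂ, 1 / 2 < s.re → χ.LFunction s ≠ 0) ∧
    (∀ (k : ℕ) [NeZero k] (χ : DirichletCharacter ℂ k) (A : ℝ),
      ∀ᶠ N : ℕ in Filter.atTop, ∃ s : ℂ, 1 + A / Real.log N < s.re ∧ partialSum χ N s = 0) := by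
  have h2 : ∀ (k : ℕ) [NeZero k] (χ : DirichletCharacter ℂ k) (A : ℝ),
      ∀ᶠ N : ℕ in Filter.atTop, ∃ s : ℂ, 1 + A / Real.log N < s.re ∧ partialSum χ N s = 0 := by
    intro k _ χ A
    filter_upwards [Pool.Agent.U955.TU.main (Nat.pos_of_ne_zero (NeZero.ne k)) χ (max A 0)
      (le_max_right _ _), Filter.eventually_ge_atTop 2] with N hN hN2
    obtain ⟨s, hs1, hs2⟩ := hN
    refine ⟨s, lt_of_le_of_lt ?_ hs1, hs2⟩
    have hlog : 0 < Real.log N := Real.log_pos (by exact_mod_cast (by omega : 1 < N))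
    gcongr
    exact le_max_left _ _
  refine ⟨?_, h2⟩
  intro k _ χ hT s _
  exfalso
  obtain ⟨N, hN, hN1⟩ := ((h2 k χ 0).and (Filter.eventually_ge_atTop 1)).exists
  obtain ⟨s', h1, h3⟩ := hN
  rw [zero_div, add_zero] at h1
  exact hT N hN1 s' h1 h3

end Pool.Agent.Results.MP_ff1a2a_nt.NoPropertyT
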